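import Pool.Agent.Run7.h62.RV.Fin3

/-!
# MP_620441_co, Q1, full answer

For all `d ≥ 1` and `s ≥ d + 2` the affine hull of the set `V(s, d)` of the concatenated Radon and
primitive Radon vectors `(r(S), P(S))` of the `s`-point sets `S` in general position in `ℝ^d` is
the solution set of an explicit system of linear equations (`Relations`).

Proof: helper62 (plan, local analysis of a mutation, assembly), helper102 (moment curve, general
position), helper416 (balanced weights, `d = 1`, folding), helper426 (counts at the moment curve,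
path argument), helper632 (Radon pairs and sign patterns), helper639 (realization of all
mutations, `s = d + 3`).
-/

namespace Pool.Agent.Results.MP_620441_co.AffineHullOfRadonVectors

open Finset

noncomputable section

open scoped Classical

/-- `S ⊆ ℝ^d` is in general position: no `d + 1` points of `S` lie on an affine hyperplane
`{x | ⟪a, x⟫ = b}`, `a ≠ 0`. -/
def GeneralPosition {d : ℕ} (S : Finset (EuclideanSpace ℝ (Fin d))) : Prop :=
  ∀ T ⊆ S, T.card = d + 1 → ∀ (a : EuclideanSpace ℝ (Fin d)) (b : ℝ), a ≠ 0 →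
    ¬ ∀ x ∈ T, inner ℝ a x = b

/-- Two disjoint nonempty finite sets whose convex hulls meet. -/
def RadonPair {d : ℕ} (T₁ T₂ : Finset (EuclideanSpace ℝ (Fin d))) : Prop :=
  T₁.Nonempty ∧ T₂.Nonempty ∧ Disjoint T₁ T₂ ∧
    (convexHull ℝ (T₁ : Set (EuclideanSpace ℝ (Fin d))) ∩
      convexHull ℝ (T₂ : Set (EuclideanSpace ℝ (Fin d)))).Nonempty

/-- The Radon partitions of `S` of type `{i, |S| - i}`, as unordered pairs `{T₁, T₂}`. -/
def radonPartitions {d : ℕ} (S : Finset (EuclideanSpace ℝ (Fin d))) (i : ℕ) :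
    Set (Finset (Finset (EuclideanSpace ℝ (Fin d)))) :=
  {π | ∃ T₁ T₂ : Finset (EuclideanSpace ℝ (Fin d)), π = {T₁, T₂} ∧ T₁ ∪ T₂ = S ∧
    RadonPair T₁ T₂ ∧ T₁.card = i ∧ T₂.card = S.card - i}

/-- The primitive (that is, inclusion-minimal) Radon partitions in `S` of type `{i, d + 2 - i}`,
as unordered pairs `{T₁, T₂}`. -/
def primitivePartitions {d : ℕ} (S : Finset (EuclideanSpace ℝ (Fin d))) (i : ℕ) :
    Set (Finset (Finset (EuclideanSpace ℝ (Fin d)))) :=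
  {π | ∃ T₁ T₂ : Finset (EuclideanSpace ℝ (Fin d)), π = {T₁, T₂} ∧ T₁ ⊆ S ∧ T₂ ⊆ S ∧
    RadonPair T₁ T₂ ∧
    (∀ T₁' T₂' : Finset (EuclideanSpace ℝ (Fin d)), T₁' ⊆ T₁ → T₂' ⊆ T₂ → RadonPair T₁' T₂' →
      ({T₁', T₂'} : Finset (Finset (EuclideanSpace ℝ (Fin d)))) = {T₁, T₂}) ∧
    T₁.card = i ∧ T₂.card = d + 2 - i}

/-- `r_i(S)`. -/
def radonNumber {d : ℕ} (S : Finset (EuclideanSpace ℝ (Fin d))) (i : ℕ) : ℕ :=
  (radonPartitions S i).ncard

/-- `P_i(S)`. -/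
def primitiveNumber {d : ℕ} (S : Finset (EuclideanSpace ℝ (Fin d))) (i : ℕ) : ℕ :=
  (primitivePartitions S i).ncard

/-- The set `V(s, d)` of the vectors `(r(S), P(S))`, `r(S) = (r_1, …, r_{⌊s/2⌋})`,
`P(S) = (P_1, …, P_{⌊d/2⌋+1})`, over all `s`-point sets `S ⊆ ℝ^d` in general position. The entry
with index `i = 0, 1, …` is `r_{i+1}`, resp. `P_{i+1}`. -/
def V (s d : ℕ) : Set ((Fin (s / 2) → ℝ) × (Fin (d / 2 + 1) → ℝ)) :=
  {x | ∃ S : Finset (EuclideanSpace ℝ (Fin d)), S.card = s ∧ GeneralPosition S ∧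
    x = (fun i : Fin (s / 2) => (radonNumber S ((i : ℕ) + 1) : ℝ),
      fun i : Fin (d / 2 + 1) => (primitiveNumber S ((i : ℕ) + 1) : ℝ))}

/-- For a vector `x = (x_1, …, x_l)` indexed by the types `{j, m - j}`: the entry
`x_{min (j, m - j)}` (and `0` for `j = 0` and `j ≥ m`). -/
def symm (m : ℕ) {l : ℕ} (x : Fin l → ℝ) (j : ℕ) : ℝ :=
  if h : 0 < min j (m - j) ∧ min j (m - j) - 1 < l then x ⟨min j (m - j) - 1, h.2⟩ else 0

/-- The corresponding number of ordered pairs `(T₁, T₂)` with `|T₁| = j`, `|T₂| = m - j`: the entry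
`x_{min (j, m - j)}`, doubled for `j = m / 2`. -/
def ordered (m : ℕ) {l : ℕ} (x : Fin l → ℝ) (j : ℕ) : ℝ :=
  (if 2 * j = m then 2 else 1) * symm m x j

/-- `τ = 2^{s-1} - ∑_{k ≤ d} C(s-1, k)`. -/
def tau (s d : ℕ) : ℝ := 2 ^ (s - 1) - ∑ k ∈ range (d + 1), ((s - 1).choose k : ℝ)

/-- The explicit system of linear equations. -/
def Relations (s d : ℕ) (r : Fin (s / 2) → ℝ) (P : Fin (d / 2 + 1) → ℝ) : Prop :=
  (∑ i, P i = (s.choose (d + 2) : ℝ)) ∧
  (d = 1 → ∀ j, 1 ≤ j → j < s → ordered s r j = (s.choose j : ℝ) - 2) ∧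
  (s = d + 2 → ∀ j, 1 ≤ j → j < s → ordered s r j = ordered (d + 2) P j) ∧
  (s = d + 3 → ∀ j, 1 ≤ j → j < s →
    2 * ordered s r j = ordered (d + 2) P j + ordered (d + 2) P (j - 1)) ∧
  (d + 4 ≤ s →
    (∑ i, r i = tau s d) ∧
    (∑ i : Fin (s / 2), ((s : ℝ) - 2 * ((i : ℕ) + 1)) ^ 2 * r i
      - ∑ i : Fin (d / 2 + 1), ((d : ℝ) + 2 - 2 * ((i : ℕ) + 1)) ^ 2 * P i
      = s * tau s d - (d + 2) * (s.choose (d + 2) : ℝ)) ∧
    (Even s → Odd d → ∑ i : Fin (s / 2), (-1 : ℝ) ^ ((i : ℕ) + 1) * r i = 0))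

end

end Pool.Agent.Results.MP_620441_co.AffineHullOfRadonVectors

open Pool.Agent.Results.MP_620441_co.AffineHullOfRadonVectors in
/-- The affine hull of `V(s, d)` is the solution set of `Relations`, for all `d ≥ 1`,
`s ≥ d + 2`. -/
theorem Pool.Agent.Results.MP_620441_co.AffineHullOfRadonVectors.result :
    ∀ d s : ℕ, 1 ≤ d → d + 2 ≤ s →
      (affineSpan ℝ (V s d) : Set ((Fin (s / 2) → ℝ) × (Fin (d / 2 + 1) → ℝ)))
        = {x | Relations s d x.1 x.2} :=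
  fun d s hd hs => Pool.Agent.Run7.h62.RV.p_FINAL d s hd hs
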